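import Pool.Agent.H79.DO.Compl
import Pool.Agent.H79.DO.Final
import Pool.Agent.H4.DO.DEC
import Pool.Agent.H4.DO.SND
import Pool.Agent.H4.DO.WEI
import Pool.Agent.H23.DO.Bas
import Pool.Agent.H23.DO.Pn
import Pool.Agent.H24.DO.CHK
import Pool.Agent.H32.DO.Sound
import Pool.Agent.H32.DO.Szb
import Pool.Agent.H41.DO.Cpl
import Pool.Agent.H41.DO.Ctab
import Pool.Agent.H43.DO.Pdalg
import Pool.Agent.H43.DO.Sep
import Pool.Agent.H69.DO.COMB
import Pool.Agent.H91.DO.WF

/-!
# The distance-one problem for labelled Markov decision processes is in NP (MP_f8a6ff_lc, Q1)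
-/

namespace Pool.Agent.Results.MP_f8a6ff_lc.InNP

open Pool.Agent.H79.DO

/-- The distance-one problem (given a finite labelled MDP and two initial distributions, with all
probabilities written in binary, is there a memoryless strategy for which the two label processes
have total variation distance one?) is in NP. -/
theorem result : distanceOne ∈ N68a2faeb.NP :=
  final Pool.Agent.H4.DO.dec' (Pool.Agent.H91.DO.wf Pool.Agent.H4.DO.dec') Pool.Agent.H32.DO.szb
    Pool.Agent.H41.DO.ctab
    (Pool.Agent.H24.DO.chk Pool.Agent.H23.DO.pnsum Pool.Agent.H23.DO.pnalg Pool.Agent.H43.DO.pdalg)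
    (Pool.Agent.H32.DO.sound (Pool.Agent.H4.DO.snd Pool.Agent.H23.DO.mat))
    (compl (Pool.Agent.H41.DO.cpl Pool.Agent.H43.DO.sep Pool.Agent.H69.DO.comb Pool.Agent.H23.DO.bas
      Pool.Agent.H23.DO.mat) Pool.Agent.H4.DO.wei)

end Pool.Agent.Results.MP_f8a6ff_lc.InNP
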