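import Mathlib
import Pool.Agent.H83.LMDPDefs
import Pool.Agent.H83.Witness

/-!
# Small witnesses for the distance-one problem of labelled Markov decision processes
-/

namespace Pool.Agent.Results.MP_f8a6ff_lc.SmallWitness

open Pool.Agent.H83

/-- **Small witnesses for the distance-one problem.** Let `M` be a labelled Markov decision process
with finite sets of states `S`, actions `A` and labels `L`, and let `μ`, `ν` be probability
distributions on `S`. If a memoryless strategy `σ` makes the total variation distance of the laws of
the infinite label sequences started from `μ` and from `ν` equal to one, then there are natural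
numbers `w s a`, at most `4 ^ |S| * |S| ^ 3 + 1` and positive exactly where `σ` is positive, such that
the memoryless strategy with probabilities `w s a / ∑ a', w s a'` also makes that distance equal to
one. -/
theorem result {S A L : Type} [Fintype S] [Fintype A] [Fintype L]
    [MeasurableSpace S] [DiscreteMeasurableSpace S] [MeasurableSpace L] [DiscreteMeasurableSpace L]
    (M : LMDP S A L) {μ ν : S → ℝ} (hμ : IsDist μ) (hν : IsDist ν) (σ : Strategy M)
    (h : tvDist (M.labelLaw σ μ) (M.labelLaw σ ν) = 1) :
    ∃ (w : S → A → ℕ) (σ' : Strategy M),
      (∀ s a, w s a ≤ 4 ^ Fintype.card S * Fintype.card S ^ 3 + 1) ∧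
      (∀ s a, 0 < w s a ↔ 0 < σ.wt s a) ∧
      (∀ s a, σ'.wt s a = w s a / ∑ a' ∈ M.enabled s, (w s a' : ℝ)) ∧
      tvDist (M.labelLaw σ' μ) (M.labelLaw σ' ν) = 1 :=
  small_witness M hμ hν σ h

end Pool.Agent.Results.MP_f8a6ff_lc.SmallWitness
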